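import Pool.Agent.H27.L1.H34.GM.Defs

/-!
Board ghk (MP_52e316_nt): the orthogonal projections on the spans of the first columns of a matrix.
-/

namespace Pool.Agent.H27.L1.H14.GHK

open MeasureTheory Pool.Agent.H27.L1.H34.GM

variable {m : ℕ}

/-- the first `j` columns of `w` -/
def cl (w : Mat m) {j : ℕ} (h : j ≤ m) : Matrix (Fin m) (Fin j) ℝ :=
  w.submatrix id (Fin.castLE h)

/-- the orthogonal projection on the span of the first `j` columns of `w` -/
noncomputable def Ep (w : Mat m) (j : ℕ) : Mat m :=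
  if h : j ≤ m then cl w h * ((cl w h).transpose * cl w h)⁻¹ * (cl w h).transpose else 0

theorem cl_gram (w : Mat m) {j : ℕ} (h : j ≤ m) : (cl w h).transpose * cl w h =
    (w.transpose * w).submatrix (Fin.castLE h) (Fin.castLE h) := rfl

theorem mnr_cl (w : Mat m) {j : ℕ} (h : j ≤ m) :
    mnr w j = ((cl w h).transpose * cl w h).det := by
  unfold mnr
  rw [dif_pos h, cl_gram]

theorem mnr_pos {w : Mat m} (hw : w.det ≠ 0) {j : ℕ} (hj : j ≤ m) : 0 < mnr w j := by
  unfold mnr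
  rw [dif_pos hj]
  have hinj : Function.Injective w.mulVec :=
    Matrix.mulVec_injective_iff_isUnit.mpr ((Matrix.isUnit_iff_isUnit_det w).mpr hw.isUnit)
  have h1 : (w.transpose * w).PosDef := by
    have h2 := Matrix.PosDef.conjTranspose_mul_self w hinj
    rwa [Matrix.conjTranspose_eq_transpose_of_trivial] at h2
  exact (h1.submatrix (Fin.castLE_injective hj)).det_pos

theorem gram_unit {w : Mat m} (hw : w.det ≠ 0) {j : ℕ} (h : j ≤ m) :
    IsUnit ((cl w h).transpose * cl w h).det := by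
  rw [← mnr_cl]
  exact (mnr_pos hw h).ne'.isUnit

theorem Ep_le (w : Mat m) {j : ℕ} (h : j ≤ m) :
    Ep w j = cl w h * ((cl w h).transpose * cl w h)⁻¹ * (cl w h).transpose := by
  unfold Ep
  rw [dif_pos h]

theorem Ep_symm (w : Mat m) (j : ℕ) : (Ep w j).transpose = Ep w j := by
  by_cases h : j ≤ m
  · rw [Ep_le w h, Matrix.transpose_mul, Matrix.transpose_mul, Matrix.transpose_transpose,
      Matrix.transpose_nonsing_inv, Matrix.transpose_mul, Matrix.transpose_transpose,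
      Matrix.mul_assoc]
  · unfold Ep
    rw [dif_neg h, Matrix.transpose_zero]

theorem Ep_cl {w : Mat m} (hw : w.det ≠ 0) {j : ℕ} (h : j ≤ m) : Ep w j * cl w h = cl w h := by
  rw [Ep_le w h, Matrix.mul_assoc, Matrix.mul_assoc,
    Matrix.nonsing_inv_mul _ (gram_unit hw h), Matrix.mul_one]

theorem Ep_cl' {w : Mat m} (hw : w.det ≠ 0) {i j : ℕ} (hij : i ≤ j) (hi : i ≤ m) (h : j ≤ m) :
    Ep w j * cl w hi = cl w hi := by
  have h1 : cl w hi = (cl w h).submatrix id (Fin.castLE hij) := rfl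
  have h2 : (Ep w j * cl w h).submatrix id (Fin.castLE hij) =
      Ep w j * (cl w h).submatrix id (Fin.castLE hij) := rfl
  rw [h1, ← h2, Ep_cl hw h]

theorem Ep_nest {w : Mat m} (hw : w.det ≠ 0) {i j : ℕ} (hij : i ≤ j) (h : j ≤ m) :
    Ep w j * Ep w i = Ep w i := by
  rw [Ep_le w (hij.trans h), ← Matrix.mul_assoc, ← Matrix.mul_assoc,
    Ep_cl' hw hij (hij.trans h) h]

theorem Ep_nest' {w : Mat m} (hw : w.det ≠ 0) {i j : ℕ} (hij : i ≤ j) (h : j ≤ m) :
    Ep w i * Ep w j = Ep w i := by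
  have h1 := congrArg Matrix.transpose (Ep_nest hw hij h)
  rwa [Matrix.transpose_mul, Ep_symm, Ep_symm] at h1

theorem Ep_idem {w : Mat m} (hw : w.det ≠ 0) {j : ℕ} (h : j ≤ m) : Ep w j * Ep w j = Ep w j :=
  Ep_nest hw le_rfl h

theorem Ep_trace {w : Mat m} (hw : w.det ≠ 0) {j : ℕ} (h : j ≤ m) :
    (Ep w j).trace = j := by
  rw [Ep_le w h, Matrix.trace_mul_comm, ← Matrix.mul_assoc,
    Matrix.mul_nonsing_inv _ (gram_unit hw h), Matrix.trace_one, Fintype.card_fin]

theorem Ep_zero (w : Mat m) : Ep w 0 = 0 := by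
  rw [Ep_le w (Nat.zero_le m)]
  ext i k
  rw [Matrix.mul_apply]
  simp

theorem Ep_full {w : Mat m} (hw : w.det ≠ 0) : Ep w m = 1 := by
  have h1 : Ep w m * w = w := Ep_cl hw le_rfl
  have h2 : Ep w m * w * w⁻¹ = w * w⁻¹ := by rw [h1]
  rwa [Matrix.mul_assoc, Matrix.mul_nonsing_inv _ hw.isUnit, Matrix.mul_one] at h2

/-- the projection fixes the first `j` columns of `w` -/
theorem Ep_mulVec {w : Mat m} (hw : w.det ≠ 0) {j : ℕ} (h : j ≤ m) (l : Fin m)
    (hl : (l : ℕ) < j) : (Ep w j).mulVec (fun i => w i l) = fun i => w i l := by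
  funext i
  exact congrFun (congrFun (Ep_cl hw h) i) ⟨(l : ℕ), hl⟩

end Pool.Agent.H27.L1.H14.GHK
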